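import Mathlib
import Pool.Agent.TH169.EC.Dense

set_option autoImplicit false

open CategoryTheory AlgebraicGeometry
open Pool.Agent.Helper226 Pool.Agent.TH169.EC

universe u

namespace Pool.Agent.Results.MP_5ec99c_ag.InfinitelyManyElementary

/-- Let `k` be an algebraically closed field of any characteristic. The Hilbert schemes of `r`
points of affine 3-space exist, and whatever representatives `𝓗 r` of them are chosen,

* for every `R` there are `r > R` and an elementary irreducible component of `Hilb_r(𝔸³)`;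
* the set of pairs `(r, C)`, where `C` is an elementary irreducible component of
  `Hilb_r(𝔸³)` and `r ≥ 1`, is infinite.

Here a component `C` is elementary if there is a nonempty (hence dense) open subset of `C` such
that for all `k`-points in it the corresponding subscheme of `𝔸³` is irreducible, that is the
radical of its ideal is a prime ideal. -/
theorem result (k : Type u) [Field k] [IsAlgClosed k] :
    (∀ r : ℕ, Nonempty (HilbertScheme k (MvPolynomial (Fin 3) k) r)) ∧
    ∀ 𝓗 : ∀ r : ℕ, HilbertScheme k (MvPolynomial (Fin 3) k) r,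
      (∀ R : ℕ, ∃ r : ℕ, R < r ∧ ∃ C ∈ irreducibleComponents (𝓗 r).H, IsElementary (𝓗 r) C) ∧
      {p : Σ r : ℕ, Set (𝓗 r).H | 1 ≤ p.1 ∧ p.2 ∈ irreducibleComponents (𝓗 p.1).H ∧
        IsElementary (𝓗 p.1) p.2}.Infinite := by
  refine ⟨fun r => ⟨hilb k _ r⟩, fun 𝓗 => ?_⟩
  have h1 : ∀ R : ℕ, ∃ r : ℕ, R < r ∧
      ∃ C ∈ irreducibleComponents (𝓗 r).H, IsElementary (𝓗 r) C := by
    intro R
    obtain ⟨r, hr, C, hC, hE⟩ := exists_elementary k R
    exact ⟨r, hr, isElementary_transport (hilb k _ r) (𝓗 r) C hC hE⟩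
  refine ⟨h1, fun hfin => ?_⟩
  obtain ⟨R, hR⟩ := (hfin.image Sigma.fst).bddAbove
  obtain ⟨r, hr, C, hC, hE⟩ := h1 R
  have h2 : r ≤ R := hR ⟨⟨r, C⟩, ⟨(Nat.zero_le R).trans_lt hr, hC, hE⟩, rfl⟩
  omega

end Pool.Agent.Results.MP_5ec99c_ag.InfinitelyManyElementary
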